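import Pool.Agent.Lib.MP_a260de_nt.MainX
import Pool.Agent.Lib.MP_a260de_nt.Large
import Pool.Agent.Lib.MP_a260de_nt.N3
import Pool.Agent.Lib.MP_a260de_nt.PrimeSum
import Pool.Agent.Lib.MP_a260de_nt.Rankin
import Pool.Agent.Lib.MP_a260de_nt.T2
import Pool.Agent.Lib.MP_a260de_nt.T3
import Pool.Agent.Lib.MP_a260de_nt.Count
import Pool.Agent.Lib.MP_a260de_nt.Crt
import Pool.Agent.Lib.MP_a260de_nt.Moment
import Pool.Agent.Lib.MP_a260de_nt.Lower
import Pool.Agent.Lib.MP_a260de_nt.Mean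

/-!
# MP_a260de_nt: the upper half of Pomerance's conjecture for almost all bases
-/

set_option autoImplicit false

namespace Pool.Agent.Results.MP_a260de_nt.AlmostAllBases

open Pool.Agent.Lib.MP_a260de_nt

/-- The set of the pseudoprimes `n ≤ x` to the base `a`. -/
def pseudoprimes (a : ℤ) (x : ℝ) : Set ℕ :=
  {n : ℕ | (n : ℝ) ≤ x ∧ 1 < n ∧ ¬ n.Prime ∧ (a : ZMod n) ^ (n - 1) = 1}

/-- `ε(x) = log log log x / log log x`. -/
noncomputable def eps (x : ℝ) : ℝ := Real.log (Real.log (Real.log x)) / Real.log (Real.log x)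

/-- For `δ, K > 0` there are `c > 0` and `x₀` such that for all `X ≥ x₀` and all `A` all but at most
`A * (exp (-(log X) ^ K) + A ^ (-c))` of the integers `a` with `1 < |a| ≤ A` satisfy
`P_a(x) ≤ x ^ (1 - (1 - δ) ε(x))` for all `x` with `X ≤ x ≤ exp (exp ((log A) ^ (1/4)))`. -/
theorem result (δ : ℝ) (hδ : 0 < δ) (K : ℝ) (hK : 0 < K) : ∃ c : ℝ, 0 < c ∧ ∃ x₀ : ℝ,
    ∀ X : ℝ, x₀ ≤ X → ∀ A : ℕ,
      (({a : ℤ | 1 < |a| ∧ |a| ≤ A ∧ ∃ x : ℝ, X ≤ x ∧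
          x ≤ Real.exp (Real.exp (Real.log A ^ (1 / 4 : ℝ))) ∧
          x ^ (1 - (1 - δ) * eps x) < ((pseudoprimes a x).ncard : ℝ)}.ncard : ℕ) : ℝ) ≤
        A * (Real.exp (-Real.log X ^ K) + (A : ℝ) ^ (-c)) := by
  have hL : StmtLarge := large
  have hP : StmtPrimeSum := primeSum
  have hR : StmtRankin := rankin
  have hT2 : StmtT2 := t2 hP hR
  have hT3 : StmtT3 := t3 hL hP hR
  have hN3 : StmtN3 := n3 hL
  have hF : StmtFinal := final hR count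
  have hMo : StmtMoment := moment crt
  have hLo : StmtLower := lower
  have hMe : StmtMean := mean
  obtain ⟨c, hc, x₀, h1⟩ := almost_allX hMo hLo hMe hT2 hT3 hN3 hF δ hδ K hK
  refine ⟨c, hc, x₀, fun X hX A => ?_⟩
  have h := h1 X hX A
  have hset : {a : ℤ | 1 < |a| ∧ |a| ≤ A ∧ ∃ x : ℝ, X ≤ x ∧
      x ≤ Real.exp (Real.exp (Real.log A ^ (1 / 4 : ℝ))) ∧
      x ^ (1 - (1 - δ) * eps x) < ((pseudoprimes a x).ncard : ℝ)} =
      ((Mainaux.exc δ X A : Finset ℤ) : Set ℤ) := by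
    ext a
    rw [Finset.mem_coe, Mainaux.mem_exc, Finset.mem_Icc]
    constructor
    · rintro ⟨i1, i2, i3⟩
      exact ⟨abs_le.1 i2, i1, i3⟩
    · rintro ⟨i1, i2, i3⟩
      exact ⟨i2, abs_le.2 i1, i3⟩
  rw [hset, Set.ncard_coe_finset]
  exact h

end Pool.Agent.Results.MP_a260de_nt.AlmostAllBases
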