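import Pool.Agent.Lib.MP_a260de_nt.CN.All
import Pool.Agent.Lib.MP_a260de_nt.CN3.All

/-!
# MP_a260de_nt: many pseudoprimes to every base

For every real `κ < 1 - exp (-1/4) / 2 = 0.6105...` and all `x ≥ x₀(κ)` the number of the pseudoprimes
`n ≤ x` to the base `a` is at least `x ^ κ`, for every integer `a` with `0 < |a| ≤ x`.
-/

set_option autoImplicit false

namespace Pool.Agent.Results.MP_a260de_nt.CarmichaelLowerBound

open Pool.Agent.Lib.MP_a260de_nt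

/-- The set of the pseudoprimes `n ≤ x` to the base `a`. -/
def pseudoprimes (a : ℤ) (x : ℝ) : Set ℕ :=
  {n : ℕ | (n : ℝ) ≤ x ∧ 1 < n ∧ ¬ n.Prime ∧ (a : ZMod n) ^ (n - 1) = 1}

/-- Carmichael numbers: composite `n` such that `b ^ (n - 1) ≡ 1 (mod n)` for all `b` coprime
to `n`. -/
def Carmichael (n : ℕ) : Prop :=
  1 < n ∧ ¬ n.Prime ∧ ∀ b : ℕ, b.Coprime n → b ^ (n - 1) ≡ 1 [MOD n]

/-- For every `ε > 0` and all large `z` at least `z ^ (1 - ε)` primes `p ≤ z` are such that `p - 1` has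
no prime factor `> z ^ β`. -/
def ManySmooth (β : ℝ) : Prop :=
  ∀ ε : ℝ, 0 < ε → ∃ z₀ : ℝ, ∀ z : ℝ, z₀ ≤ z →
    z ^ (1 - ε) ≤ ({p : ℕ | (p : ℝ) ≤ z ∧ p.Prime ∧
      ∀ q : ℕ, q.Prime → q ∣ p - 1 → (q : ℝ) ≤ z ^ β}.ncard : ℝ)

theorem shiftedSmooth_of (β : ℝ) (h : ManySmooth β) : CN.ShiftedSmooth β := by
  classical
  intro ε hε
  obtain ⟨z₀, hz⟩ := h ε hε
  refine ⟨max z₀ 0, fun z hzz => (hz z ((le_max_left _ _).trans hzz)).trans ?_⟩
  have hz0 : 0 ≤ z := (le_max_right _ _).trans hzz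
  rw [← Set.ncard_coe_finset]
  have : ({p : ℕ | (p : ℝ) ≤ z ∧ p.Prime ∧
      ∀ q : ℕ, q.Prime → q ∣ p - 1 → (q : ℝ) ≤ z ^ β}).ncard ≤
      ((((Finset.Icc 1 ⌊z⌋₊).filter (fun p : ℕ => p.Prime ∧
      ∀ q ∈ (p - 1).primeFactors, (q : ℝ) ≤ z ^ β)) : Finset ℕ) : Set ℕ).ncard := by
    refine Set.ncard_le_ncard ?_ (Finset.finite_toSet _)
    rintro p ⟨h1, h2, h3⟩
    simp only [Finset.coe_filter, Finset.mem_Icc]
    exact ⟨⟨h2.one_le, Nat.le_floor h1⟩, h2, fun q hq =>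
      h3 q (Nat.prime_of_mem_primeFactors hq) (Nat.dvd_of_mem_primeFactors hq)⟩
  exact_mod_cast this

theorem pspCount_le (a : ℤ) (x : ℝ) (hx : 0 ≤ x) : CN.pspCount a x ≤
    {n : ℕ | n ∈ pseudoprimes a x ∧ Carmichael n ∧
      ∀ q : ℕ, q.Prime → q ∣ n → Real.log x ^ 2 < (q : ℝ)}.ncard := by
  classical
  unfold CN.pspCount
  rw [← Set.ncard_coe_finset]
  refine Set.ncard_le_ncard ?_ ?_
  · intro n hn
    simp only [Finset.coe_filter, Finset.mem_Icc, Set.mem_ofPred_eq] at hn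
    obtain ⟨⟨h1, h2⟩, hc, hd, hr⟩ := hn
    refine ⟨⟨(Nat.le_floor_iff hx).1 h2, hc.1, hc.2.1, ?_⟩, hc, hr⟩
    have h3 := (ZMod.intCast_zmod_eq_zero_iff_dvd (a ^ (n - 1) - 1) n).2 hd
    push_cast at h3
    exact sub_eq_zero.1 h3
  · refine (Set.finite_Iic ⌊x⌋₊).subset ?_
    rintro n ⟨⟨h1, -⟩, -⟩
    exact Set.mem_Iic.2 (Nat.le_floor h1)

/-- Let `0 < β < 1/2` and `β > exp (-1/4) / 2 = 0.3894...` (or let many primes `p` have a
`z ^ β`-smooth `p - 1`). Then for every `ε > 0` and all `x ≥ x₀`, for all integers `a` with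
`0 < |a| ≤ x`, at least `x ^ (1 - β - ε)` pseudoprimes `n ≤ x` to the base `a` are Carmichael numbers
without prime factors `≤ (log x)^2`. -/
theorem result (β ε : ℝ) (hβ : 0 < β) (hβ2 : β < 1 / 2)
    (h : Real.exp (-1 / 4) / 2 < β ∨ ManySmooth β) (hε : 0 < ε) :
    ∃ x₀ : ℝ, ∀ x : ℝ, x₀ ≤ x → ∀ a : ℤ, a ≠ 0 → |(a : ℝ)| ≤ x →
      x ^ (1 - β - ε) ≤ ({n : ℕ | n ∈ pseudoprimes a x ∧ Carmichael n ∧
        ∀ q : ℕ, q.Prime → q ∣ n → Real.log x ^ 2 < (q : ℝ)}.ncard : ℝ) := by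
  have hs : CN.ShiftedSmooth β := by
    rcases h with h | h
    · have h1 : (1 : ℝ) / 4 < β := by
        have := Real.add_one_le_exp (-1 / 4 : ℝ)
        linarith
      refine CN3.aSec3 β h1 hβ2 ?_
      have h2 : (1 : ℝ) / (2 * β) < Real.exp (1 / 4) := by
        rw [div_lt_iff₀ (by linarith)]
        have h3 : Real.exp (1 / 4) * Real.exp (-1 / 4) = 1 := by
          rw [← Real.exp_add]
          norm_num
        have h4 : 0 < Real.exp (1 / 4 : ℝ) := Real.exp_pos _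
        nlinarith
      have h5 : Real.log ((1 : ℝ) / (2 * β)) < 1 / 4 := by
        rw [Real.log_lt_iff_lt_exp (by positivity)]
        exact h2
      linarith
    · exact shiftedSmooth_of β h
  obtain ⟨x₀, hx⟩ := CN.aGen β hβ hβ2 hs ε hε
  refine ⟨max x₀ 0, fun x hxx a ha hax => (hx x ((le_max_left _ _).trans hxx) a ha hax).trans ?_⟩
  exact_mod_cast pspCount_le a x ((le_max_right _ _).trans hxx)

end Pool.Agent.Results.MP_a260de_nt.CarmichaelLowerBound
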