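import Pool.Agent.Lib.MP_a260de_nt.Orders
import Pool.Agent.Lib.MP_a260de_nt.PrimeSum
import Pool.Agent.Lib.MP_a260de_nt.Rankin

/-!
# MP_a260de_nt: every base, pseudoprimes and the order of the base
-/

set_option autoImplicit false

namespace Pool.Agent.Results.MP_a260de_nt.OrderRange

open Pool.Agent.Lib.MP_a260de_nt

/-- The set of the pseudoprimes `n ≤ x` to the base `a`. -/
def pseudoprimes (a : ℤ) (x : ℝ) : Set ℕ :=
  {n : ℕ | (n : ℝ) ≤ x ∧ 1 < n ∧ ¬ n.Prime ∧ (a : ZMod n) ^ (n - 1) = 1}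

/-- `ε(x) = log log log x / log log x`. -/
noncomputable def eps (x : ℝ) : ℝ := Real.log (Real.log (Real.log x)) / Real.log (Real.log x)

/-- (1) At most `x ^ (1 - (1 - δ) ε(x))` of the pseudoprimes `n ≤ x` to the base `a` have an order
of `a` modulo `n` outside of the interval `(exp (√(log x)), x ^ (8 ε(x)))`.
(2) At most `(x / L) (4 + 2 log x)` of them have an order at least `L ^ 8`.
(3) At most `x ^ (1 - (1/(2β) - δ) ε(x))` of the integers `n ≤ x` prime to `a` have an order at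
most `exp ((log x) ^ β)`. -/
theorem result :
    (∀ δ : ℝ, 0 < δ → δ < 1 → ∃ x₀ : ℝ, ∀ x : ℝ, x₀ ≤ x → ∀ a : ℤ, 1 < |a| →
      ((|a| : ℤ) : ℝ) ≤ x →
      (({n : ℕ | n ∈ pseudoprimes a x ∧
          ((orderOf (a : ZMod n) : ℝ) ≤ Real.exp (Real.log x ^ (1 / 2 : ℝ)) ∨
            x ^ (8 * eps x) ≤ (orderOf (a : ZMod n) : ℝ))}.ncard : ℕ) : ℝ) ≤
        x ^ (1 - (1 - δ) * eps x)) ∧
    (∀ (x L : ℝ) (a : ℤ), Real.exp 1 ≤ L → 1 < |a| → ((|a| : ℤ) : ℝ) ≤ x →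
      (({n : ℕ | n ∈ pseudoprimes a x ∧ L ^ 8 ≤ (orderOf (a : ZMod n) : ℝ)}.ncard : ℕ) : ℝ) ≤
        x / L * (4 + 2 * Real.log x)) ∧
    ∀ β δ : ℝ, 0 < β → β < 1 → 0 < δ → δ < 1 / (2 * β) → ∃ x₀ : ℝ, ∀ x : ℝ, x₀ ≤ x →
      ∀ a : ℤ, 1 < |a| → ((|a| : ℤ) : ℝ) ≤ x →
        (({n : ℕ | (n : ℝ) ≤ x ∧ 0 < orderOf (a : ZMod n) ∧
          (orderOf (a : ZMod n) : ℝ) ≤ Real.exp (Real.log x ^ β)}.ncard : ℕ) : ℝ) ≤
          x ^ (1 - (1 / (2 * β) - δ) * eps x) := by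
  have hP : StmtPrimeSum := primeSum
  have hR : StmtRankin := rankin
  refine ⟨fun δ hδ hδ1 => ?_, fun x L a hL ha hax => ?_, fun β δ hβ hβ1 hδ hδβ => ?_⟩
  · obtain ⟨x₀, h⟩ := orderRange hP hR hδ hδ1
    exact ⟨x₀, fun x hx a ha hax => h x hx a (by omega) hax⟩
  · have h0 : (0 : ℝ) < L := (Real.exp_pos 1).trans_le hL
    refine largeOrder a x L (by omega) hax ?_ ?_
    · rw [Real.le_log_iff_exp_le h0]
      exact hL
    · exact (Real.one_le_exp zero_le_one).trans hL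
  · obtain ⟨x₀, h⟩ := smallOrder hP hR hβ hβ1 hδ hδβ
    exact ⟨x₀, fun x hx a ha hax => h x hx a (by omega) hax⟩

end Pool.Agent.Results.MP_a260de_nt.OrderRange
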