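import Pool.Agent.Lib.MP_a260de_nt.FinalK
import Pool.Agent.Lib.MP_a260de_nt.PrimeSum
import Pool.Agent.Lib.MP_a260de_nt.Rankin
import Pool.Agent.Lib.MP_a260de_nt.T2

/-!
# MP_a260de_nt: every base, pseudoprimes with a small small-order part
-/

set_option autoImplicit false

namespace Pool.Agent.Results.MP_a260de_nt.SmallOrderPart

open Pool.Agent.Lib.MP_a260de_nt

/-- The set of the pseudoprimes `n ≤ x` to the base `a`. -/
def pseudoprimes (a : ℤ) (x : ℝ) : Set ℕ :=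
  {n : ℕ | (n : ℝ) ≤ x ∧ 1 < n ∧ ¬ n.Prime ∧ (a : ZMod n) ^ (n - 1) = 1}

/-- `ε(x) = log log log x / log log x`. -/
noncomputable def eps (x : ℝ) : ℝ := Real.log (Real.log (Real.log x)) / Real.log (Real.log x)

/-- The part of `n` composed of the primes `p` modulo which `a` has order at most `p ^ θ`. -/
noncomputable def smallOrderPart (θ : ℝ) (a : ℤ) (n : ℕ) : ℕ :=
  ∏ p ∈ n.primeFactors.filter (fun p : ℕ => (orderOf (a : ZMod p) : ℝ) ≤ (p : ℝ) ^ θ),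
    p ^ n.factorization p

/-- For `0 < δ < 1` there is `x₀` such that for all `x ≥ x₀`, all `a` with `1 < |a| ≤ x` and all
`κ ∈ [0, 1]` the number of the pseudoprimes `n ≤ x` to the base `a` whose part composed of primes
`p` with order of `a` modulo `p` at most `p ^ (1 - δ/4)` is at most `x ^ κ` is at most
`x ^ (1 - (1 - κ/2 - δ) ε(x))`. -/
theorem result (δ : ℝ) (hδ : 0 < δ) (hδ1 : δ < 1) : ∃ x₀ : ℝ, ∀ x : ℝ, x₀ ≤ x →
    ∀ a : ℤ, 1 < |a| → ((|a| : ℤ) : ℝ) ≤ x → ∀ κ : ℝ, 0 ≤ κ → κ ≤ 1 →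
      (({n : ℕ | n ∈ pseudoprimes a x ∧
          (smallOrderPart (1 - δ / 4) a n : ℝ) ≤ x ^ κ}.ncard : ℕ) : ℝ) ≤
        x ^ (1 - (1 - κ / 2 - δ) * eps x) := by
  have hP : StmtPrimeSum := primeSum
  have hR : StmtRankin := rankin
  have hT2 : StmtT2 := t2 hP hR
  obtain ⟨x₀, h⟩ := finalK hT2 hP hR hδ hδ1
  exact ⟨x₀, fun x hx a ha hax κ hκ hκ1 => h x hx a (by omega) hax κ hκ hκ1⟩

end Pool.Agent.Results.MP_a260de_nt.SmallOrderPart
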